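import Pool.Agent.helper23.F2.Spec

set_option autoImplicit false

namespace Pool.Agent.F2

open Pool.Agent.helper23.TH

theorem CL10 : CL10_stmt := by
  intro t a K k c ht ha0 ha1 hK hk hc
  have ht1 : (1 : ℝ) ≤ t := by exact_mod_cast ht
  have hκ0 : 0 < (t : ℝ) + 1 - a := by linarith
  obtain ⟨κ, hκ⟩ : ∃ κ : ℝ, κ = (t : ℝ) + 1 - a := ⟨_, rfl⟩
  rw [← hκ] at hκ0 ⊢
  have hk0 : 0 < k := by linarith
  have h2k : 0 < (2 * k) ^ (1 + a) := Real.rpow_pos_of_pos (by linarith) _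
  obtain ⟨B, hB⟩ : ∃ B : ℝ, B = K * (2 * k) ^ (1 + a) / c := ⟨_, rfl⟩
  have hB0 : 0 < B := by rw [hB]; positivity
  refine ⟨B ^ (1 / κ), Real.rpow_pos_of_pos hB0 _, ?_⟩
  intro N U D hN hU hUD hD
  have hN0 : 0 < N := by linarith
  have hkD : 0 < k * D := by linarith
  have hD0 : 0 < D := (mul_pos_iff_of_pos_left hk0).1 hkD
  have h1 : B * N ≤ D ^ κ := by
    have h2 : (B * N) ^ (1 / κ) ≤ D := by
      rw [Real.mul_rpow hB0.le hN0.le]
      exact hD
    have h3 : ((B * N) ^ (1 / κ)) ^ κ ≤ D ^ κ :=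
      Real.rpow_le_rpow (Real.rpow_nonneg (by positivity) _) h2 hκ0.le
    rw [← Real.rpow_mul (by positivity), one_div, inv_mul_cancel₀ hκ0.ne', Real.rpow_one] at h3
    exact h3
  have h4 : U ^ (1 + a) ≤ (2 * k) ^ (1 + a) * D ^ (1 + a) := by
    rw [← Real.mul_rpow (by linarith) hD0.le]
    apply Real.rpow_le_rpow hU.le _ (by linarith)
    linarith [mul_assoc 2 k D]
  have h5 : D ^ (t + 2) = D ^ κ * D ^ (1 + a) := by
    rw [← Real.rpow_add hD0, ← Real.rpow_natCast]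
    have h7 : ((t + 2 : ℕ) : ℝ) = κ + (1 + a) := by
      rw [hκ]
      push_cast
      ring
    rw [h7]
  rw [h5]
  have hDa : 0 < D ^ (1 + a) := Real.rpow_pos_of_pos hD0 _
  have h6 : K * (2 * k) ^ (1 + a) = c * B := by
    rw [hB]
    field_simp
  calc K * U ^ (1 + a) ≤ K * ((2 * k) ^ (1 + a) * D ^ (1 + a)) :=
        mul_le_mul_of_nonneg_left h4 hK.le
    _ = c * (B * D ^ (1 + a)) := by
        rw [← mul_assoc, h6]
        ring
    _ ≤ c * (D ^ κ * D ^ (1 + a) / N) := by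
        apply mul_le_mul_of_nonneg_left _ hc.le
        rw [le_div_iff₀ hN0]
        calc B * D ^ (1 + a) * N = (B * N) * D ^ (1 + a) := by ring
          _ ≤ D ^ κ * D ^ (1 + a) := mul_le_mul_of_nonneg_right h1 hDa.le

end Pool.Agent.F2
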